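import Mathlib

/-!
# The coefficients of `(y - x) / ((1 - x y) (1 - x - y))`
-/

namespace Pool.Agent.X294.OS

open PowerSeries

/-- the inner variable -/
noncomputable abbrev Y : PowerSeries ℚ := X

/-- the denominator -/
noncomputable def den : PowerSeries (PowerSeries ℚ) :=
  (1 - X * PowerSeries.C Y) * (1 - X - PowerSeries.C Y)

/-- the series `(y - x) / ((1 - x y) (1 - x - y))` -/
noncomputable def K : PowerSeries (PowerSeries ℚ) := (PowerSeries.C Y - X) * Ring.inverse den

theorem den_unit : IsUnit den := by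
  rw [den, PowerSeries.isUnit_iff_constantCoeff, PowerSeries.isUnit_iff_constantCoeff]
  simp

theorem K_spec : den * K = PowerSeries.C Y - X := by
  unfold K
  rw [mul_left_comm, Ring.mul_inverse_cancel _ den_unit, mul_one]

/-- the coefficient of `x^a y^b` -/
noncomputable def c (a b : ℕ) : ℚ := coeff b (coeff a K)

/-- the rows -/
noncomputable def R (a : ℕ) : PowerSeries ℚ := coeff a K

theorem expand : PowerSeries.C (1 - Y) * K + X * (PowerSeries.C (-1 - Y + Y ^ 2) * K) +
    X * (X * (PowerSeries.C Y * K)) = PowerSeries.C Y - X := by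
  rw [← K_spec, den]
  simp only [map_sub, map_add, map_neg, map_one, map_pow]
  ring

theorem R0 : (1 - Y) * R 0 = Y := by
  have h := congrArg (coeff 0) expand
  simp only [map_add, map_sub, coeff_zero_X_mul, coeff_C_mul, add_zero] at h
  simpa [R] using h

theorem cf1 (u v w : PowerSeries ℚ) :
    coeff (0 + 1) (PowerSeries.C u * K + X * (PowerSeries.C v * K) +
      X * (X * (PowerSeries.C w * K))) = u * R 1 + v * R 0 := by
  simp only [map_add, coeff_succ_X_mul, coeff_zero_X_mul, coeff_C_mul, add_zero]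
  rfl

theorem cf2 (u v w : PowerSeries ℚ) (a : ℕ) :
    coeff (a + 1 + 1) (PowerSeries.C u * K + X * (PowerSeries.C v * K) +
      X * (X * (PowerSeries.C w * K))) = u * R (a + 2) + v * R (a + 1) + w * R a := by
  simp only [map_add, coeff_succ_X_mul, coeff_C_mul]
  rfl

theorem R1 : (1 - Y) * R 1 = (1 + Y - Y ^ 2) * R 0 - 1 := by
  have h := congrArg (coeff (0 + 1)) expand
  rw [cf1, map_sub] at h
  have h2 : coeff (0 + 1) (PowerSeries.C Y : PowerSeries (PowerSeries ℚ)) = 0 := by
    rw [coeff_C]; simp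
  have h3 : coeff (0 + 1) (X : PowerSeries (PowerSeries ℚ)) = 1 := by
    rw [coeff_X]; simp
  rw [h2, h3] at h
  linear_combination h

theorem R2 (a : ℕ) : (1 - Y) * R (a + 2) = (1 + Y - Y ^ 2) * R (a + 1) - Y * R a := by
  have h := congrArg (coeff (a + 1 + 1)) expand
  rw [cf2, map_sub] at h
  have h2 : coeff (a + 1 + 1) (PowerSeries.C Y : PowerSeries (PowerSeries ℚ)) = 0 := by
    rw [coeff_C]; simp
  have h3 : coeff (a + 1 + 1) (X : PowerSeries (PowerSeries ℚ)) = 0 := by
    rw [coeff_X]; simp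
  rw [h2, h3] at h
  linear_combination h

/-- differences -/
noncomputable def T : ℕ → ℕ → PowerSeries ℚ
  | 0, k => R k
  | a + 1, k => T a k - T a (k + 1)

theorem T_rec (a : ℕ) : ∀ k, (1 - Y) * T (a + 2) k =
    (1 - 3 * Y + Y ^ 2) * T (a + 1) k + (Y - Y ^ 2) * T a k := by
  induction a with
  | zero =>
    intro k
    have h := R2 k
    simp only [T]
    linear_combination h
  | succ a ih =>
    intro k
    have h1 := ih k
    have h2 := ih (k + 1)
    simp only [T] at h1 h2 ⊢
    linear_combination h1 - h2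

theorem T0 : (1 - Y) * T 0 0 = Y := R0

theorem T1 : (1 - Y) * T 1 0 = (1 - 3 * Y + Y ^ 2) * T 0 0 + (1 - Y) := by
  simp only [T]
  linear_combination (-1) * R0 - R1

theorem coeff_Ysq (b : ℕ) (f : PowerSeries ℚ) : coeff (b + 2) (Y ^ 2 * f) = coeff b f := by
  rw [pow_two, mul_assoc, show b + 2 = b + 1 + 1 by ring, coeff_succ_X_mul, coeff_succ_X_mul]

/-- the transformed array -/
noncomputable def s (a b : ℕ) : ℚ := coeff b (T a 0)

section co
variable (f g h : PowerSeries ℚ)

theorem co0 (e : (1 - Y) * f = (1 - 3 * Y + Y ^ 2) * g + (Y - Y ^ 2) * h) :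
    coeff 0 f = coeff 0 g := by
  have := congrArg (coeff 0) e
  simpa [sub_mul, add_mul] using this

theorem co1 (e : (1 - Y) * f = (1 - 3 * Y + Y ^ 2) * g + (Y - Y ^ 2) * h) :
    coeff 1 f = coeff 0 f + coeff 1 g - 3 * coeff 0 g + coeff 0 h := by
  have e' : f - Y * f = g - Y * (C (3 : ℚ) * g) + Y * (Y * g) + (Y * h - Y * (Y * h)) := by
    have h3 : (C (3 : ℚ) : PowerSeries ℚ) = 3 := map_ofNat _ 3
    rw [h3]
    linear_combination e
  have := congrArg (coeff (0 + 1)) e'
  simp only [map_add, map_sub, coeff_succ_X_mul, coeff_zero_X_mul, coeff_C_mul] at this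
  simp only [zero_add] at this
  linarith

theorem co2 (e : (1 - Y) * f = (1 - 3 * Y + Y ^ 2) * g + (Y - Y ^ 2) * h) (b : ℕ) :
    coeff (b + 2) f = coeff (b + 1) f + coeff (b + 2) g - 3 * coeff (b + 1) g + coeff b g
      + coeff (b + 1) h - coeff b h := by
  have e' : f - Y * f = g - Y * (C (3 : ℚ) * g) + Y * (Y * g) + (Y * h - Y * (Y * h)) := by
    have h3 : (C (3 : ℚ) : PowerSeries ℚ) = 3 := map_ofNat _ 3
    rw [h3]
    linear_combination e
  have := congrArg (coeff (b + 1 + 1)) e'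
  simp only [map_add, map_sub, coeff_succ_X_mul, coeff_C_mul] at this
  simp only [show b + 1 + 1 = b + 2 by ring] at this
  linarith

end co

theorem s_00 : s 0 0 = 0 := by
  have := congrArg (coeff 0) T0
  simpa [s, sub_mul] using this

theorem s_01 : s 0 1 = 1 := by
  have e : T 0 0 - Y * T 0 0 = Y := by linear_combination T0
  have := congrArg (coeff (0 + 1)) e
  simp only [map_sub, coeff_succ_X_mul] at this
  have h0 := s_00
  unfold s at h0 ⊢
  rw [h0] at this
  simpa [coeff_X] using this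

theorem s_0b (b : ℕ) : s 0 (b + 2) = s 0 (b + 1) := by
  have e : T 0 0 - Y * T 0 0 = Y := by linear_combination T0
  have := congrArg (coeff (b + 1 + 1)) e
  simp only [map_sub, coeff_succ_X_mul] at this
  have h1 : coeff (b + 1 + 1) (Y : PowerSeries ℚ) = 0 := by rw [coeff_X]; simp
  rw [h1] at this
  unfold s
  linarith

theorem T1' : (1 - Y) * (T 1 0 - 1) = (1 - 3 * Y + Y ^ 2) * T 0 0 + (Y - Y ^ 2) * 0 := by
  linear_combination T1

theorem s_10 : s 1 0 = 1 := by
  have h := co0 _ _ _ T1'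
  have h0 := s_00
  unfold s at h0 ⊢
  rw [h0] at h
  simp only [map_sub] at h
  have h1 : coeff 0 (1 : PowerSeries ℚ) = 1 := by simp
  rw [h1] at h
  linarith

theorem s_1b (b : ℕ) : s 1 (b + 2) = s 1 (b + 1) + s 0 (b + 2) - 3 * s 0 (b + 1) + s 0 b := by
  have h := co2 _ _ _ T1' b
  simp only [map_sub, map_zero] at h
  have h1 : coeff (b + 2) (1 : PowerSeries ℚ) = 0 := by rw [coeff_one]; simp
  have h2 : coeff (b + 1) (1 : PowerSeries ℚ) = 0 := by rw [coeff_one]; simp
  rw [h1, h2] at h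
  unfold s
  linarith

theorem s_a0 (a : ℕ) : s (a + 2) 0 = s (a + 1) 0 := co0 _ _ _ (T_rec a 0)

theorem s_a1 (a : ℕ) : s (a + 2) 1 = s (a + 2) 0 + s (a + 1) 1 - 3 * s (a + 1) 0 + s a 0 :=
  co1 _ _ _ (T_rec a 0)

theorem s_ab (a b : ℕ) : s (a + 2) (b + 2) = s (a + 2) (b + 1) + s (a + 1) (b + 2)
    - 3 * s (a + 1) (b + 1) + s (a + 1) b + s a (b + 1) - s a b :=
  co2 _ _ _ (T_rec a 0) b

theorem s_symm : ∀ n a b : ℕ, a + b ≤ n → s a b = s b a := by
  intro n
  induction n with
  | zero =>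
    intro a b h
    have h1 : a = 0 := by omega
    have h2 : b = 0 := by omega
    subst h1; subst h2; rfl
  | succ n ih =>
    intro a b h
    match a, b, h with
    | 0, 0, _ => rfl
    | 0, 1, _ => rw [s_01, s_10]
    | 1, 0, _ => rw [s_01, s_10]
    | 1, 1, _ => rfl
    | 0, b + 2, h => rw [s_0b, s_a0, ih 0 (b + 1) (by omega)]
    | a + 2, 0, h => rw [s_0b, s_a0, ih 0 (a + 1) (by omega)]
    | 1, b + 2, h =>
      rw [s_1b, s_a1, ih 1 (b + 1) (by omega), ih 0 (b + 2) (by omega), ih 0 (b + 1) (by omega),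
        ih 0 b (by omega)]
      ring
    | a + 2, 1, h =>
      rw [s_1b, s_a1, ih (a + 1) 1 (by omega), ih (a + 2) 0 (by omega), ih (a + 1) 0 (by omega),
        ih a 0 (by omega)]
      ring
    | a + 2, b + 2, h =>
      rw [s_ab, s_ab, ih (a + 2) (b + 1) (by omega), ih (a + 1) (b + 2) (by omega),
        ih (a + 1) (b + 1) (by omega), ih (a + 1) b (by omega), ih a (b + 1) (by omega),
        ih a b (by omega)]
      ring

/-! ## antisymmetry of `c` -/

section co
variable (f g h : PowerSeries ℚ)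

theorem cc0 (e : (1 - Y) * f = (1 + Y - Y ^ 2) * g - Y * h) : coeff 0 f = coeff 0 g := by
  have := congrArg (coeff 0) e
  simpa [sub_mul, add_mul] using this

theorem cc1 (e : (1 - Y) * f = (1 + Y - Y ^ 2) * g - Y * h) :
    coeff 1 f = coeff 0 f + coeff 1 g + coeff 0 g - coeff 0 h := by
  have e' : f - Y * f = g + Y * g - Y * (Y * g) - Y * h := by linear_combination e
  have := congrArg (coeff (0 + 1)) e'
  simp only [map_add, map_sub, coeff_succ_X_mul, coeff_zero_X_mul] at this
  simp only [zero_add] at this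
  linarith

theorem cc2 (e : (1 - Y) * f = (1 + Y - Y ^ 2) * g - Y * h) (b : ℕ) :
    coeff (b + 2) f = coeff (b + 1) f + coeff (b + 2) g + coeff (b + 1) g - coeff b g
      - coeff (b + 1) h := by
  have e' : f - Y * f = g + Y * g - Y * (Y * g) - Y * h := by linear_combination e
  have := congrArg (coeff (b + 1 + 1)) e'
  simp only [map_add, map_sub, coeff_succ_X_mul] at this
  simp only [show b + 1 + 1 = b + 2 by ring] at this
  linarith

end co

theorem c_eq_s0 (b : ℕ) : c 0 b = s 0 b := rfl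

theorem R1' : (1 - Y) * (R 1 + 1) = (1 + Y - Y ^ 2) * R 0 - Y * 1 := by
  linear_combination R1

theorem c_10 : c 1 0 = -1 := by
  have h := cc0 _ _ _ R1'
  have h0 := s_00
  rw [← c_eq_s0] at h0
  have h1 : coeff 0 (R 0) = c 0 0 := rfl
  rw [h1, h0, map_add] at h
  have h2 : coeff 0 (1 : PowerSeries ℚ) = 1 := by simp
  rw [h2] at h
  have h3 : coeff 0 (R 1) = c 1 0 := rfl
  rw [h3] at h
  linarith

theorem c_11 : c 1 1 = 0 := by
  have h := cc1 _ _ _ R1'
  simp only [map_add] at h
  have h2 : coeff 0 (1 : PowerSeries ℚ) = 1 := by simp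
  have h3 : coeff 1 (1 : PowerSeries ℚ) = 0 := by rw [coeff_one]; simp
  rw [h2, h3] at h
  have e1 : coeff 1 (R 1) = c 1 1 := rfl
  have e2 : coeff 0 (R 1) = c 1 0 := rfl
  have e3 : coeff 1 (R 0) = s 0 1 := rfl
  have e4 : coeff 0 (R 0) = s 0 0 := rfl
  rw [e1, e2, e3, e4, c_10, s_01, s_00] at h
  linarith

theorem c_1b (b : ℕ) : c 1 (b + 2) = c 1 (b + 1) + c 0 (b + 2) + c 0 (b + 1) - c 0 b := by
  have h := cc2 _ _ _ R1' b
  simp only [map_add] at h
  have h1 : coeff (b + 2) (1 : PowerSeries ℚ) = 0 := by rw [coeff_one]; simp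
  have h2 : coeff (b + 1) (1 : PowerSeries ℚ) = 0 := by rw [coeff_one]; simp
  rw [h1, h2] at h
  have e1 : ∀ a b, c a b = coeff b (R a) := fun a b => rfl
  rw [e1, e1, e1, e1, e1]
  linarith

theorem c_a0 (a : ℕ) : c (a + 2) 0 = c (a + 1) 0 := cc0 _ _ _ (R2 a)

theorem c_a1 (a : ℕ) : c (a + 2) 1 = c (a + 2) 0 + c (a + 1) 1 + c (a + 1) 0 - c a 0 :=
  cc1 _ _ _ (R2 a)

theorem c_ab (a b : ℕ) : c (a + 2) (b + 2) = c (a + 2) (b + 1) + c (a + 1) (b + 2)
    + c (a + 1) (b + 1) - c (a + 1) b - c a (b + 1) := cc2 _ _ _ (R2 a) b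

theorem c_anti_aux : ∀ n a b : ℕ, a + b ≤ n → c a b = - c b a := by
  intro n
  induction n with
  | zero =>
    intro a b h
    have h1 : a = 0 := by omega
    have h2 : b = 0 := by omega
    subst h1; subst h2
    rw [c_eq_s0, s_00]; ring
  | succ n ih =>
    intro a b h
    have h00 : c 0 0 = 0 := s_00
    have h01 : c 0 1 = 1 := s_01
    match a, b, h with
    | 0, 0, _ => rw [h00]; ring
    | 0, 1, _ => rw [h01, c_10]; ring
    | 1, 0, _ => rw [h01, c_10]
    | 1, 1, _ => rw [c_11]; ring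
    | 0, b + 2, h =>
      have h1 : c 0 (b + 2) = c 0 (b + 1) := s_0b b
      rw [h1, c_a0, ih 0 (b + 1) (by omega)]
    | a + 2, 0, h =>
      have h1 : c 0 (a + 2) = c 0 (a + 1) := s_0b a
      rw [h1, c_a0, ih (a + 1) 0 (by omega)]
    | 1, b + 2, h =>
      rw [c_1b, c_a1, ih 1 (b + 1) (by omega), ih 0 (b + 2) (by omega), ih 0 (b + 1) (by omega),
        ih 0 b (by omega)]
      ring
    | a + 2, 1, h =>
      rw [c_1b, c_a1, ih (a + 1) 1 (by omega), ih (a + 2) 0 (by omega), ih (a + 1) 0 (by omega),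
        ih a 0 (by omega)]
      ring
    | a + 2, b + 2, h =>
      rw [c_ab, c_ab, ih (a + 2) (b + 1) (by omega), ih (a + 1) (b + 2) (by omega),
        ih (a + 1) (b + 1) (by omega), ih (a + 1) b (by omega), ih a (b + 1) (by omega)]
      ring

theorem c_anti (a b : ℕ) : c a b = - c b a := c_anti_aux (a + b) a b le_rfl

/-! ## the binomial transform -/

/-- binomial transform -/
def bt (f : ℕ → ℚ) (a : ℕ) : ℚ := ∑ j ∈ Finset.range (a + 1), (-1) ^ j * (a.choose j : ℚ) * f j

theorem bt_eq (f : ℕ → ℚ) (a : ℕ) : bt f a = (-1) ^ a * (fwdDiff 1)^[a] f 0 := by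
  rw [fwdDiff_iter_eq_sum_shift, Finset.mul_sum]
  unfold bt
  apply Finset.sum_congr rfl
  intro j hj
  have hj' : j ≤ a := by simpa [Nat.lt_succ_iff] using hj
  simp only [zero_add, smul_eq_mul, mul_one, zsmul_eq_mul]
  push_cast
  have h : ((-1 : ℚ)) ^ a * (-1) ^ (a - j) = (-1) ^ j := by
    obtain ⟨t, rfl⟩ := Nat.exists_eq_add_of_le hj'
    rw [Nat.add_sub_cancel_left, pow_add, mul_assoc, ← pow_add, ← two_mul, pow_mul]
    simp
  rw [← h]
  ring

theorem bt_bt (f : ℕ → ℚ) (a : ℕ) : bt (bt f) a = f a := by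
  have h := shift_eq_sum_fwdDiff_iter 1 f a 0
  simp only [smul_eq_mul, mul_one, zero_add] at h
  rw [h]
  unfold bt
  apply Finset.sum_congr rfl
  intro j _
  have h2 := bt_eq f j
  unfold bt at h2
  rw [h2, nsmul_eq_mul]
  have h3 : ((-1 : ℚ)) ^ j * (-1) ^ j = 1 := by rw [← pow_add, ← two_mul, pow_mul]; simp
  linear_combination ((a.choose j : ℚ) * (fwdDiff 1)^[j] f 0) * h3

theorem T_sum (a : ℕ) : ∀ k b, coeff b (T a k) =
    ∑ j ∈ Finset.range (a + 1), (-1) ^ j * (a.choose j : ℚ) * c (k + j) b := by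
  intro k b
  have h : ∀ a k, coeff b (T a k) = (-1) ^ a * (fwdDiff 1)^[a] (fun j => c j b) k := by
    intro a
    induction a with
    | zero => intro k; simp [T, c, R]
    | succ a ih =>
      intro k
      rw [T, map_sub, ih, ih, Function.iterate_succ_apply']
      unfold fwdDiff
      ring
  rw [h, fwdDiff_iter_eq_sum_shift, Finset.mul_sum]
  apply Finset.sum_congr rfl
  intro j hj
  have hj' : j ≤ a := by simpa [Nat.lt_succ_iff] using hj
  simp only [smul_eq_mul, mul_one, zsmul_eq_mul]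
  push_cast
  have h : ((-1 : ℚ)) ^ a * (-1) ^ (a - j) = (-1) ^ j := by
    obtain ⟨t, rfl⟩ := Nat.exists_eq_add_of_le hj'
    rw [Nat.add_sub_cancel_left, pow_add, mul_assoc, ← pow_add, ← two_mul, pow_mul]
    simp
  rw [← h]
  ring

theorem s_eq (a b : ℕ) : s a b = bt (fun j => c j b) a := by
  unfold s bt
  rw [T_sum]
  simp

/-- the double transform -/
theorem double (i j : ℕ) : bt (fun a => bt (fun b => c a b) j) i = - c i j := by
  have h1 : ∀ a, bt (fun b => c a b) j = - s j a := by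
    intro a
    rw [s_eq]
    unfold bt
    rw [← Finset.sum_neg_distrib]
    apply Finset.sum_congr rfl
    intro b _
    beta_reduce
    rw [c_anti a b]; ring
  simp only [h1]
  have h2 : ∀ a, - s j a = - bt (fun b => c b j) a := by
    intro a
    rw [s_symm (j + a) j a le_rfl, s_eq]
  simp only [h2]
  have h3 : bt (fun a => - bt (fun b => c b j) a) i = - bt (bt (fun b => c b j)) i := by
    unfold bt
    rw [← Finset.sum_neg_distrib]
    apply Finset.sum_congr rfl
    intro b _
    ring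
  rw [h3, bt_bt]

theorem bt_pow (x : ℚ) (i : ℕ) : bt (fun a => x ^ a) i = (1 - x) ^ i := by
  rw [sub_eq_add_neg, add_comm, add_pow]
  unfold bt
  apply Finset.sum_congr rfl
  intro a _
  rw [neg_pow]
  simp
  ring

end Pool.Agent.X294.OS
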