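import Pool.Agent.Helper929.Pfaffian
import Pool.Agent.X294.OS.Ser

/-!
# The Pfaffian identity
-/

namespace Pool.Agent.X294.OS

open Matrix Pool.Agent.Helper929

/-- the array with the entries `c a b` and one more column `u` -/
noncomputable def Am (m : ℕ) (u : ℕ → ℚ) : Matrix (Fin (m + 1)) (Fin (m + 1)) ℚ :=
  Matrix.of fun i j =>
    if (i : ℕ) < m then (if (j : ℕ) < m then c i j else u i)
    else (if (j : ℕ) < m then - u j else 0)

/-- the transformed array -/
noncomputable def Bm (m : ℕ) (u : ℕ → ℚ) : Matrix (Fin (m + 1)) (Fin (m + 1)) ℚ :=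
  Matrix.of fun i j =>
    if (i : ℕ) < m then (if (j : ℕ) < m then - c i j else u i)
    else (if (j : ℕ) < m then - u j else 0)

/-- the binomial matrix -/
def Pm (m : ℕ) : Matrix (Fin (m + 1)) (Fin (m + 1)) ℚ :=
  Matrix.of fun i j =>
    if (i : ℕ) < m then (if (j : ℕ) < m then (-1) ^ (j : ℕ) * ((i : ℕ).choose j : ℚ) else 0)
    else (if (j : ℕ) < m then 0 else 1)

theorem sumP {m i : ℕ} (hi : i < m) (f : ℕ → ℚ) :
    ∑ l : Fin m, ((-1) ^ (l : ℕ) * (i.choose l : ℚ)) * f l = bt f i := by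
  rw [Finset.sum_range (fun l => ((-1) ^ l * (i.choose l : ℚ)) * f l) |>.symm]
  unfold bt
  symm
  apply Finset.sum_subset
  · intro x hx
    rw [Finset.mem_range] at hx ⊢
    omega
  · intro x _ hx
    rw [Finset.mem_range] at hx
    rw [Nat.choose_eq_zero_of_lt (by omega)]
    simp

theorem PA_cast (m : ℕ) (u : ℕ → ℚ) (i : Fin m) (k : Fin (m + 1)) :
    (Pm m * Am m u) i.castSucc k =
      if (k : ℕ) < m then bt (fun a => c a k) i else bt u i := by
  rw [Matrix.mul_apply, Fin.sum_univ_castSucc]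
  simp only [Pm, Am, Matrix.of_apply, Fin.val_castSucc, Fin.is_lt, if_true, Fin.val_last,
    lt_irrefl, if_false, zero_mul, add_zero]
  split_ifs with h
  · exact sumP i.2 (fun a => c a k)
  · exact sumP i.2 u

theorem PA_last (m : ℕ) (u : ℕ → ℚ) (k : Fin (m + 1)) :
    (Pm m * Am m u) (Fin.last m) k = if (k : ℕ) < m then - u k else 0 := by
  rw [Matrix.mul_apply, Fin.sum_univ_castSucc]
  simp only [Pm, Am, Matrix.of_apply, Fin.val_castSucc, Fin.is_lt, if_true, Fin.val_last,
    lt_irrefl, if_false, zero_mul, Finset.sum_const_zero, zero_add, one_mul]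

theorem bt_neg (f : ℕ → ℚ) (i : ℕ) : bt (fun a => - f a) i = - bt f i := by
  unfold bt
  rw [← Finset.sum_neg_distrib]
  apply Finset.sum_congr rfl
  intro b _
  ring

theorem PAP (m : ℕ) (u : ℕ → ℚ) : Pm m * Am m u * (Pm m)ᵀ = Bm m (bt u) := by
  ext i j
  rw [Matrix.mul_apply, Fin.sum_univ_castSucc]
  simp only [Matrix.transpose_apply]
  refine Fin.lastCases ?_ (fun i => ?_) i
  · simp only [PA_last]
    refine Fin.lastCases ?_ (fun j => ?_) j
    · simp [Pm, Bm]
    · simp only [Pm, Bm, Matrix.of_apply, Fin.val_castSucc, Fin.is_lt, if_true, Fin.val_last,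
        lt_irrefl, if_false, zero_mul, add_zero]
      rw [← bt_neg, ← sumP j.2 (fun a => - u a)]
      apply Finset.sum_congr rfl
      intro l _
      ring
  · simp only [PA_cast]
    refine Fin.lastCases ?_ (fun j => ?_) j
    · simp [Pm, Bm]
    · simp only [Pm, Bm, Matrix.of_apply, Fin.val_castSucc, Fin.is_lt, if_true, Fin.val_last,
        lt_irrefl, if_false, mul_zero, add_zero]
      have h := double j i
      -- `bt` over the second index
      have h1 : ∑ x : Fin m, bt (fun a => c a x) i * ((-1) ^ (x : ℕ) * ((j : ℕ).choose x : ℚ)) =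
          bt (fun b => bt (fun a => c a b) i) j := by
        rw [← sumP j.2 (fun b => bt (fun a => c a b) i)]
        apply Finset.sum_congr rfl
        intro l _
        ring
      rw [h1]
      have h2 : (fun b => bt (fun a => c a b) i) = fun b => - bt (fun a => c b a) i := by
        funext b
        rw [← bt_neg]
        congr 1
        funext a
        rw [c_anti a b]
      rw [h2, bt_neg, h, c_anti i j]

theorem prod_sign (n : ℕ) : ∏ i ∈ Finset.range (2 * n + 1), ((-1 : ℚ)) ^ i = (-1) ^ n := by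
  induction n with
  | zero => simp
  | succ n ih =>
    rw [show 2 * (n + 1) + 1 = (2 * n + 1) + 1 + 1 by ring, Finset.prod_range_succ,
      Finset.prod_range_succ, ih]
    have h1 : ((-1 : ℚ)) ^ (2 * n + 1) = -1 := by rw [pow_succ, pow_mul]; simp
    have h2 : ((-1 : ℚ)) ^ (2 * n + 1 + 1) = 1 := by rw [pow_succ, h1]; norm_num
    rw [h1, h2]; ring

theorem det_P (n : ℕ) : (Pm (2 * n + 1)).det = (-1) ^ n := by
  rw [Matrix.det_of_lowerTriangular, Fin.prod_univ_castSucc]
  · simp only [Pm, Matrix.of_apply, Fin.val_castSucc, Fin.is_lt, if_true, Fin.val_last,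
      lt_irrefl, if_false, mul_one, Nat.choose_self, Nat.cast_one]
    rw [← prod_sign n, Finset.prod_range]
  · intro i j hij
    have hij' : (i : ℕ) < j := by simpa using hij
    have hj := j.2
    simp only [Pm, Matrix.of_apply]
    rw [if_pos (by omega)]
    split_ifs
    · rw [Nat.choose_eq_zero_of_lt hij']; simp
    · rfl

theorem pf_neg (m : ℕ) : ∀ A : Matrix (Fin (2 * m)) (Fin (2 * m)) ℚ,
    pf (2 * m) (-A) = (-1) ^ m * pf (2 * m) A := by
  induction m with
  | zero => intro A; simp [pf]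
  | succ m ih =>
    intro A
    show pf (2 * m + 2) (-A) = (-1) ^ (m + 1) * pf (2 * m + 2) A
    rw [pf, pf, Finset.mul_sum]
    apply Finset.sum_congr rfl
    intro j _
    have h := ih (A.submatrix (fun k => (j.succAbove k).succ) (fun k => (j.succAbove k).succ))
    have e : (-A).submatrix (fun k => (j.succAbove k).succ) (fun k => (j.succAbove k).succ) =
        -(A.submatrix (fun k => (j.succAbove k).succ) (fun k => (j.succAbove k).succ)) := rfl
    rw [e, h, Matrix.neg_apply]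
    ring

theorem Am_anti (m : ℕ) (u : ℕ → ℚ) (i j : Fin (m + 1)) : Am m u i j = - Am m u j i := by
  simp only [Am, Matrix.of_apply]
  split_ifs
  · exact c_anti i j
  · ring
  · ring
  · ring

/-- the sign change of the last row and column -/
def Dm (m : ℕ) : Matrix (Fin (m + 1)) (Fin (m + 1)) ℚ :=
  Matrix.diagonal fun i => if (i : ℕ) < m then 1 else -1

theorem det_D (m : ℕ) : (Dm m).det = -1 := by
  unfold Dm
  rw [Matrix.det_diagonal, Fin.prod_univ_castSucc]
  simp

theorem Bm_eq (m : ℕ) (u : ℕ → ℚ) : Bm m u = Dm m * (-(Am m u)) * (Dm m)ᵀ := by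
  ext i j
  rw [Dm, Matrix.diagonal_transpose, Matrix.mul_diagonal, Matrix.diagonal_mul]
  simp only [Bm, Am, Matrix.of_apply, Matrix.neg_apply]
  split_ifs <;> ring

theorem pf_Am (n : ℕ) (u : ℕ → ℚ) :
    pf (2 * n + 1 + 1) (Am (2 * n + 1) u) = pf (2 * n + 1 + 1) (Am (2 * n + 1) (bt u)) := by
  have h1 := pf_gram (Am (2 * n + 1) u) (Am_anti _ u) (Pm (2 * n + 1))
  rw [PAP, det_P, Bm_eq] at h1
  have h2 := pf_gram (-(Am (2 * n + 1) (bt u))) (fun i j => by
    rw [Matrix.neg_apply, Matrix.neg_apply, Am_anti _ _ i j]) (Dm (2 * n + 1))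
  rw [h2, det_D] at h1
  have h3 : pf (2 * n + 1 + 1) (-(Am (2 * n + 1) (bt u))) =
      (-1) ^ (n + 1) * pf (2 * n + 1 + 1) (Am (2 * n + 1) (bt u)) := pf_neg (n + 1) _
  rw [h3] at h1
  have h4 : ((-1 : ℚ)) ^ n * (-1) ^ n = 1 := by rw [← pow_add, ← two_mul, pow_mul]; simp
  have h5 := congrArg (fun z => (-1 : ℚ) ^ n * z) h1
  beta_reduce at h5
  rw [pow_succ] at h5
  linear_combination (pf (2 * n + 1 + 1) (Am (2 * n + 1) u) -
    pf (2 * n + 1 + 1) (Am (2 * n + 1) (bt u))) * (-h4) - h5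

/-! ## linearity in the last column -/

/-- the bilinear form -/
noncomputable def BB (m : ℕ) : LinearMap.BilinForm ℚ ((Fin m → ℚ) × (Fin m → ℚ)) :=
  LinearMap.mk₂ ℚ (fun x y => Matrix.toBilin' (Matrix.of fun i j : Fin m => c i j) x.1 y.1 +
      x.1 ⬝ᵥ y.2 - x.2 ⬝ᵥ y.1)
    (by intro x x' y; simp only [Prod.fst_add, Prod.snd_add, map_add, LinearMap.add_apply,
          add_dotProduct]; ring)
    (by intro r x y; simp only [Prod.smul_fst, Prod.smul_snd, map_smul, LinearMap.smul_apply,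
          smul_dotProduct, smul_eq_mul]; ring)
    (by intro x y y'; simp only [Prod.fst_add, Prod.snd_add, map_add, dotProduct_add]; ring)
    (by intro r x y; simp only [Prod.smul_fst, Prod.smul_snd, map_smul, dotProduct_smul,
          smul_eq_mul]; ring)

theorem BB_ap (m : ℕ) (x y : (Fin m → ℚ) × (Fin m → ℚ)) : BB m x y =
    Matrix.toBilin' (Matrix.of fun i j : Fin m => c i j) x.1 y.1 + x.1 ⬝ᵥ y.2 - x.2 ⬝ᵥ y.1 := rfl

theorem BB_self (m : ℕ) (x : (Fin m → ℚ) × (Fin m → ℚ)) : BB m x x = 0 := by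
  rw [BB_ap, toBilin_self _ (fun i j => by simp only [Matrix.of_apply]; exact c_anti i j),
    dotProduct_comm]
  ring

/-- the vectors -/
noncomputable def vv (m : ℕ) (u : Fin m → ℚ) : Fin (m + 1) → (Fin m → ℚ) × (Fin m → ℚ) :=
  Fin.snoc (α := fun _ => (Fin m → ℚ) × (Fin m → ℚ)) (fun i => (Pi.single i 1, 0)) (0, u)

theorem gram_vv (m : ℕ) (u : ℕ → ℚ) :
    (Matrix.of fun i j => BB m (vv m (fun i => u i) i) (vv m (fun i => u i) j)) = Am m u := by
  ext i j
  rw [Matrix.of_apply, BB_ap]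
  refine Fin.lastCases ?_ (fun i => ?_) i
  · refine Fin.lastCases ?_ (fun j => ?_) j
    · simp [vv, Am]
    · simp [vv, Am]
  · refine Fin.lastCases ?_ (fun j => ?_) j
    · simp [vv, Am]
    · simp [vv, Am, Matrix.toBilin'_single]

theorem pf_vv (m : ℕ) (u : ℕ → ℚ) :
    pf (m + 1) (Am m u) = pfE (BB m) (BB_self m) (m + 1) (vv m (fun i => u i)) := by
  rw [pfE_eq, gram_vv]

theorem pf_add (m : ℕ) (u v : ℕ → ℚ) : pf (m + 1) (Am m (fun a => u a + v a)) =
    pf (m + 1) (Am m u) + pf (m + 1) (Am m v) := by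
  rw [pf_vv, pf_vv, pf_vv]
  have h := (pfE (BB m) (BB_self m) (m + 1)).map_update_add (vv m (fun i => u i)) (Fin.last m)
    (0, fun i : Fin m => u i) (0, fun i : Fin m => v i)
  have e : ∀ z : Fin m → ℚ, Function.update (vv m (fun i => u i)) (Fin.last m) (0, z) = vv m z := by
    intro z
    unfold vv
    rw [Fin.update_snoc_last]
  rw [e, e] at h
  have e2 : ((0, fun i : Fin m => u i) : (Fin m → ℚ) × (Fin m → ℚ)) + (0, fun i : Fin m => v i) =
      (0, fun i : Fin m => u i + v i) := by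
    ext <;> simp
  rw [e2, e] at h
  exact h

theorem pf_smul (m : ℕ) (r : ℚ) (u : ℕ → ℚ) : pf (m + 1) (Am m (fun a => r * u a)) =
    r * pf (m + 1) (Am m u) := by
  rw [pf_vv, pf_vv]
  have h := (pfE (BB m) (BB_self m) (m + 1)).map_update_smul (vv m (fun i => u i)) (Fin.last m)
    r (0, fun i : Fin m => u i)
  have e : ∀ z : Fin m → ℚ, Function.update (vv m (fun i => u i)) (Fin.last m) (0, z) = vv m z := by
    intro z
    unfold vv
    rw [Fin.update_snoc_last]
  rw [e] at h
  have e2 : r • ((0, fun i : Fin m => u i) : (Fin m → ℚ) × (Fin m → ℚ)) =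
      (0, fun i : Fin m => r * u i) := by
    ext <;> simp
  rw [e2, e] at h
  exact h

/-- the identity for powers -/
theorem pf_pow (n : ℕ) (x : ℚ) : pf (2 * n + 1 + 1) (Am (2 * n + 1) (fun a => x ^ a)) =
    pf (2 * n + 1 + 1) (Am (2 * n + 1) (fun a => (1 - x) ^ a)) := by
  rw [pf_Am]
  congr 2
  funext i
  exact bt_pow x i

theorem main (n : ℕ) : pf (2 * n + 1 + 1) (Am (2 * n + 1) (fun a => (-1) ^ a)) =
    pf (2 * n + 1 + 1) (Am (2 * n + 1) (fun a => ((-1) ^ a + 2 ^ a) / 2)) := by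
  have h1 := pf_pow n (-1)
  have h2 : (fun a : ℕ => (((-1 : ℚ)) ^ a + 2 ^ a) / 2) =
      fun a => (fun a => (1 / 2 : ℚ) * (-1) ^ a) a + (fun a => (1 / 2 : ℚ) * 2 ^ a) a := by
    funext a; ring
  rw [h2, pf_add, pf_smul, pf_smul]
  have h3 : (fun a : ℕ => ((1 : ℚ) - -1) ^ a) = fun a => (2 : ℚ) ^ a := by
    funext a; norm_num
  rw [h3] at h1
  rw [← h1]
  ring

end Pool.Agent.X294.OS
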